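import Pool.Agent.Lib.MP_8f66f0_al_ZN.Root
import Pool.Agent.Lib.MP_8f66f0_al_ZA.Ord
import Pool.Agent.Lib.MP_8f66f0_al_ZR.OutR
import Pool.Agent.Lib.MP_8f66f0_al_ZR.Main

/-!
# PROJECT ZERO, part N: the periodic families
-/

set_option autoImplicit false

namespace Pool.Agent.ZN

open Module Pool.Agent.ZA

section

variable {O : Type} [Ring O] [MetricSpace (PI O)] (Γ : Geo (RingAut O) (PI O))

/-- The translation of a line. -/
theorem trans_line {δ : RingAut O} {c : SY (PI O)} {τ : ℝ} (h : Γ.gs δ c = Γ.fl τ c) (t : ℝ) :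
    δ • Γ.ln c.1.1 c.1.2 t = Γ.ln c.1.1 c.1.2 (t + τ) := by
  have h1 : δ • c.1.1 = Γ.ln c.1.1 c.1.2 τ := congrArg (fun d : SY (PI O) => d.1.1) h
  have h2 : δ • c.1.2 = Γ.ln c.1.1 c.1.2 (τ + 1) := congrArg (fun d : SY (PI O) => d.1.2) h
  rw [Γ.gln, h1, h2, Γ.lnln]
  congr 1
  ring

theorem trans_pow {δ : RingAut O} {c : SY (PI O)} {τ : ℝ} (h : Γ.gs δ c = Γ.fl τ c) (n : ℕ)
    (t : ℝ) : (δ ^ n) • Γ.ln c.1.1 c.1.2 t = Γ.ln c.1.1 c.1.2 (t + n * τ) := by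
  induction n with
  | zero => rw [pow_zero, one_smul, Nat.cast_zero, zero_mul, add_zero]
  | succ n ih =>
    rw [pow_succ', mul_smul, ih, trans_line Γ h]
    congr 1
    push_cast
    ring

/-- A translation of a line is normal for the scalar product at a point of the line. -/
theorem normal_of (hΓ : OneP Γ) {δ : RingAut O} {σ σ' : PI O} {τ : ℝ}
    (h : ∀ t, δ • Γ.ln σ σ' t = Γ.ln σ σ' (t + τ)) (v : VO O) :
    ext O δ (σ.s (ext O δ (σ.s v))) = σ.s (ext O δ (σ.s (ext O δ v))) := by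
  have h1 : ∀ (t : ℝ) (v : VO O), ext O δ ((Γ.ln σ σ' t).s v) =
      (Γ.ln σ σ' (t + τ)).s (ext O δ v) := by
    intro t v
    rw [← h t, PI.smul_s, ext_cancel_inv]
  have h2 : ∀ v : VO O, ext O δ (σ.s v) = (Γ.ln σ σ' τ).s (ext O δ v) := by
    intro v
    have h3 := h1 0 v
    rwa [Γ.ln0, zero_add] at h3
  have h4 : ∀ v : VO O, (Γ.ln σ σ' τ).s ((Γ.ln σ σ' (τ + τ)).s v) =
      σ.s ((Γ.ln σ σ' τ).s v) := by
    intro v
    have h5 := congrArg σ.s (hΓ σ σ' τ τ v)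
    rw [σ.inv, σ.inv] at h5
    rw [h5, (Γ.ln σ σ' τ).inv]
  rw [h2 (ext O δ (σ.s v)), h2 v, h1, h4, h2]

/-- **Part N of PROJECT ZERO.** -/
theorem tN : S_N := by
  intro O _ _ _ _ _ Γ hΓ V hV
  obtain ⟨δ, c, τ, hτ, hc, hV⟩ := hV
  let e := Module.finBasis ℤ O
  have hfi : (ZX.cong O 3).FiniteIndex := ZX.cong_fi e 3 (by norm_num)
  obtain ⟨E, hE, -, hmem⟩ := Subgroup.exists_pow_mem_of_index_ne_zero hfi.index_ne_zero δ
  have ht : ∀ t, (δ ^ E) • Γ.ln c.1.1 c.1.2 t = Γ.ln c.1.1 c.1.2 (t + E * τ) :=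
    trans_pow Γ hc E
  refine ⟨δ ^ E, c.1.1, ?_, normal_of Γ hΓ ht, ?_⟩
  · intro h1
    have h2 := ht 0
    rw [h1, one_smul, zero_add] at h2
    have h3 := Γ.dln c.1.1 c.1.2 0 (E * τ)
    rw [← h2, dist_self, c.2, mul_one, zero_sub, abs_neg] at h3
    have h4 : (0 : ℝ) < E * τ := by positivity
    rw [abs_of_pos h4] at h3
    exact h4.ne h3
  · intro g hg
    obtain ⟨a, ha, hga⟩ := hV g hg
    have h1 : g * (δ ^ a) ^ E = (δ ^ a) ^ E * g := (Commute.pow_right (show Commute g (δ ^ a) from hga) E)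
    have h2 : (g * δ ^ E * g⁻¹) ^ a = (δ ^ E) ^ a := by
      rw [conj_pow, ← pow_mul, mul_comm E a, pow_mul, h1, mul_inv_cancel_right]
    have h3 : g * δ ^ E * g⁻¹ ∈ ZX.cong O 3 := (ZX.cong_normal 3).conj_mem _ hmem g
    have h4 := root_aut e h3 hmem a ha h2
    exact mul_inv_eq_iff_eq_mul.1 h4

end

/-- **Part R of PROJECT ZERO.** -/
theorem sR : ZA.S_R := ZR.tR fun O _ _ N e h => ZR.rOut_YO e h

end Pool.Agent.ZN
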