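import Mathlib
import Pool.Agent.Lib.MP_8f66f0_al_TreeQ.Zab
import Pool.Agent.Lib.MP_8f66f0_al_FH.VB
import Pool.Agent.Lib.MP_8f66f0_al_Tree.SpecF

/-! Classes of groups which are closed under actions on trees, extensions and finite extensions
contain all elementary amenable groups. -/

set_option autoImplicit false

namespace Pool.Agent.ZN

open Pool.Agent.TreeC Pool.Agent.FH

/-- The closure properties. -/
structure ExCl (P : (G : Type) → [Group G] → Prop) : Prop extends TCl P where
  fi : ∀ (G : Type) [Group G] (K : Subgroup G), K.FiniteIndex → P K → P G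
  ext : ∀ (G Q : Type) [Group G] [Group Q] (f : G →* Q), P f.ker → P Q → P G

variable {P : (G : Type) → [Group G] → Prop}

theorem ExCl.fin (hP : ExCl P) (G : Type) [Group G] (h : Finite G) : P G :=
  hP.fi G ⊥ inferInstance (hP.triv _)

/-- Finitely generated abelian groups. -/
theorem ExCl.fgab (hP : ExCl P) (A : Type) [CommGroup A] (h : Group.FG A) : P A := by
  let M := Additive A
  have hM : Module.Finite ℤ M := Module.Finite.iff_addGroup_fg.2 inferInstance
  let T : Submodule ℤ M := Submodule.torsion ℤ M
  let f : A →* Multiplicative (M ⧸ T) := AddMonoidHom.toMultiplicativeRight T.mkQ.toAddMonoidHom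
  have hT : Finite T := by
    have h1 : Module.Finite ℤ T := inferInstance
    exact Module.finite_of_fg_torsion T (Submodule.torsion_isTorsion)
  refine TreeQ.zab TreeQ.zr P hP.toTCl A (Multiplicative (M ⧸ T)) f ?_ ?_
  · intro a n hn ha
    have h1 : n • Multiplicative.toAdd a = 0 := ha
    have h2 : Module.IsTorsionFree ℤ (M ⧸ T) := inferInstance
    have h3 : ((n : ℕ) : ℤ) • Multiplicative.toAdd a = 0 := by
      rw [natCast_zsmul]
      exact h1
    rcases smul_eq_zero.1 h3 with h | h
    · omega
    · exact h
  · refine hP.fin _ (Finite.of_injective (fun x : f.ker => (⟨Additive.ofMul x.1, ?_⟩ : T)) ?_)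
    · have h1 : f x.1 = 1 := x.2
      exact (Submodule.Quotient.mk_eq_zero T).1 h1
    · intro x y hxy
      exact Subtype.ext (congrArg (fun z : T => Additive.toMul (z : M)) hxy)

/-- Elementary amenable groups. -/
theorem ExCl.ea (hP : ExCl P) {G : Type} [Group G] (h : EAm G) : P G := by
  have h1 := yy_of_eam h
  clear h
  induction h1 with
  | triv hs => exact hP.triv _
  | iso e _ ih => exact hP.iso _ _ e ih
  | directed S hne hd hS _ ih => exact hP.directed _ S hne hd hS ih
  | @vab G _ N _ _ hN ih =>
    refine hP.ext G (G ⧸ N) (QuotientGroup.mk' N) ?_ ?_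
    · rw [QuotientGroup.ker_mk']
      exact ih
    · obtain ⟨A, h2, h3, h4⟩ := hN
      refine hP.fi _ A h2 ?_
      let _ : CommGroup A := { (inferInstance : Group A) with
        mul_comm := fun x y => Subtype.ext (h4 x.1 x.2 y.1 y.2) }
      exact hP.fgab A ((Group.fg_iff_subgroup_fg A).2 h3)

end Pool.Agent.ZN
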