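import Mathlib
import Pool.Agent.Lib.MP_8f66f0_al_CC.GraphDefs

/-! The class of groups of the final theorem. (Median graphs `IsMedian` and `NoCube` are defined in
`CC/GraphDefs`.) -/

set_option autoImplicit false

namespace Pool.Agent.ZN

/-- The least class of groups which contains all groups `GL_d(R)`, for all `d` and all commutative
rings `R`, and is closed under isomorphism and subgroups (`emb`), directed unions, extensions, and

* actions on trees with all vertex stabilizers in the class (inversions of edges are allowed, and
  there is no condition on the edge stabilizers);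
* actions on CAT(0) cube complexes of finite dimension with all vertex stabilizers in the class:
  the group acts on the `1`-skeleton `G`, a median graph which contains no cube of dimension
  `N + 1` (inversions are allowed, the graph may be locally infinite, and there is no condition on
  the stabilizers of the cubes). -/
inductive LQ : (Γ : Type) → [Group Γ] → Prop
  | gl (d : ℕ) (R : Type) [CommRing R] : LQ (Matrix.GeneralLinearGroup (Fin d) R)
  | emb {Γ Γ' : Type} [Group Γ] [Group Γ'] (f : Γ' →* Γ) : Function.Injective f → LQ Γ → LQ Γ'
  | directed {Γ : Type} [Group Γ] (S : Set (Subgroup Γ)) : S.Nonempty →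
      DirectedOn (· ≤ ·) S → (∀ g : Γ, ∃ K ∈ S, g ∈ K) → (∀ K ∈ S, LQ K) → LQ Γ
  | ext {Γ Q : Type} [Group Γ] [Group Q] (f : Γ →* Q) : LQ f.ker → LQ Q → LQ Γ
  | tree {Γ V : Type} [Group Γ] [MulAction Γ V] (T : SimpleGraph V) : T.IsTree →
      (∀ (g : Γ) (v w : V), T.Adj v w → T.Adj (g • v) (g • w)) →
      (∀ v : V, LQ (MulAction.stabilizer Γ v)) → LQ Γ
  | cube {Γ V : Type} [Group Γ] [MulAction Γ V] (G : SimpleGraph V) (N : ℕ) : CC.IsMedian G →
      CC.NoCube G (N + 1) → (∀ (g : Γ) (v w : V), G.Adj v w → G.Adj (g • v) (g • w)) →
      (∀ v : V, LQ (MulAction.stabilizer Γ v)) → LQ Γ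

end Pool.Agent.ZN
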