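import Mathlib
import Pool.Agent.Lib.MP_8f66f0_al_TQ.YYC

/-! Closure of a class of groups under the rule `zero`: if `θ` maps `Γ` to `GL_n(ℤ)` and all
subgroups of `Γ` with a finite image are in the class, then `Γ` is in the class. Subgroups,
extensions, commensurable groups. -/

set_option autoImplicit false

namespace Pool.Agent.ZN

open Pool.Agent.TreeC Pool.Agent.TQ Pool.Agent.CC Pool.Agent.QT

/-- The rule. -/
def S_ZP (P : (G : Type) → [Group G] → Prop) : Prop :=
  ∀ (n : ℕ) (H : Type) [Group H] (θ : H →* Matrix.GeneralLinearGroup (Fin n) ℤ),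
    (∀ U : Subgroup H, Finite (U.map θ) → P U) → P H

variable {P : (G : Type) → [Group G] → Prop}

theorem map_comp_finite {A B C : Type} [Group A] [Group B] [Group C] (f : A →* B) (θ : B →* C)
    (U : Subgroup A) (h : Finite (U.map (θ.comp f))) : Finite ((U.map f).map θ) := by
  rw [Subgroup.map_map]
  exact h

/-- Subgroups. -/
theorem zp_hd (hP : TCl P) (h : S_ZP P) : S_ZP (Hd P) := by
  intro n Γ _ θ hU H
  refine h n H (θ.comp H.subtype) fun U hf => ?_
  have h1 : Hd P (U.map H.subtype) := hU _ (map_comp_finite H.subtype θ U hf)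
  have h2 : P (U.map H.subtype) := hP.iso _ _ Subgroup.topEquiv (h1 ⊤)
  exact hP.iso _ _ (U.equivMapOfInjective H.subtype H.subtype_injective).symm h2

/-- Extensions. -/
theorem zp_star (hP : TClv P) (h : S_ZP P) : S_ZP (Star P) := by
  intro n Γ _ θ hU G _ f hf
  refine h n G (θ.comp f) fun U hfin => ?_
  have h1 : P ((U.map f).comap f) :=
    star_comap3 hP f hf _ (hU _ (map_comp_finite f θ U hfin))
  have hle : U ≤ (U.map f).comap f := Subgroup.le_comap_map f U
  exact hP.iso _ _ (Subgroup.subgroupOfEquivOfLe hle) (hP.sub _ (U.subgroupOf _) h1)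

section Pow

variable {Γ G Q : Type} [Group Γ] [Group G] [MulAction Γ Q] (D : Coc Γ G Q) {n : ℕ}
  (θ : G →* Matrix.GeneralLinearGroup (Fin n) ℤ)

/-- The twisted power of a representation. -/
def powR : Γ →* Module.End ℤ (Q → Fin n → ℤ) where
  toFun g :=
    { toFun := fun x q => (θ (D.c g (g⁻¹ • q)) : Matrix (Fin n) (Fin n) ℤ).mulVec (x (g⁻¹ • q))
      map_add' := fun x y => funext fun q => Matrix.mulVec_add _ _ _
      map_smul' := fun a x => funext fun q => Matrix.mulVec_smul _ a _ }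
  map_one' := by
    apply LinearMap.ext
    intro x
    funext q
    change (θ (D.c 1 ((1 : Γ)⁻¹ • q)) : Matrix (Fin n) (Fin n) ℤ).mulVec (x ((1 : Γ)⁻¹ • q)) = x q
    rw [inv_one, one_smul, D.c_one, map_one, Units.val_one, Matrix.one_mulVec]
  map_mul' g h := by
    apply LinearMap.ext
    intro x
    funext q
    change (θ (D.c (g * h) ((g * h)⁻¹ • q)) : Matrix (Fin n) (Fin n) ℤ).mulVec
      (x ((g * h)⁻¹ • q)) = (θ (D.c g (g⁻¹ • q)) : Matrix (Fin n) (Fin n) ℤ).mulVec
        ((θ (D.c h (h⁻¹ • g⁻¹ • q)) : Matrix (Fin n) (Fin n) ℤ).mulVec (x (h⁻¹ • g⁻¹ • q)))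
    rw [mul_inv_rev, mul_smul, D.c_mul, smul_inv_smul, map_mul, Units.val_mul,
      Matrix.mulVec_mulVec]

theorem powR_apply (g : Γ) (x : Q → Fin n → ℤ) (q : Q) (hq : g • q = q) :
    powR D θ g x q = (θ (D.c g q) : Matrix (Fin n) (Fin n) ℤ).mulVec (x q) := by
  have h1 : g⁻¹ • q = q := by rw [inv_smul_eq_iff, hq]
  change (θ (D.c g (g⁻¹ • q)) : Matrix (Fin n) (Fin n) ℤ).mulVec (x (g⁻¹ • q)) = _
  rw [h1]

/-- The power determines the matrix of an element which fixes the index `q`. -/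
theorem powR_coef [DecidableEq Q] (g : Γ) (q : Q) (hq : g • q = q) (a b : Fin n) :
    powR D θ g (Pi.single q (Pi.single b 1)) q a =
      (θ (D.c g q) : Matrix (Fin n) (Fin n) ℤ) a b := by
  rw [powR_apply D θ g _ q hq, Pi.single_eq_same, Matrix.mulVec_single_one]
  rfl

end Pow

/-- Commensurable groups. -/
theorem zp_pc (h : S_ZP P) : S_ZP (PC P) := by
  classical
  intro n G _ θ hv Λ _ hΛ H hHf f hf
  have hfin : Finite (Λ ⧸ H) := inferInstance
  let _ : Fintype (Λ ⧸ H) := Fintype.ofFinite _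
  let D := cocOf H f
  let b := Module.finBasis ℤ (Λ ⧸ H → Fin n → ℤ)
  let E := (LinearMap.toMatrixAlgEquiv b).toMulEquiv
  let Θ : Λ →* Matrix.GeneralLinearGroup (Fin (Module.finrank ℤ (Λ ⧸ H → Fin n → ℤ))) ℤ :=
    (Units.mapEquiv E).toMonoidHom.comp (powR D θ).toHomUnits
  refine h _ Λ Θ fun C hC => ?_
  let j : Λ ⧸ H := QuotientGroup.mk 1
  let S := MulAction.stabilizer Λ j
  have hS : S.FiniteIndex := by
    refine ⟨?_⟩
    rw [MulAction.index_stabilizer]
    exact (Set.ncard_pos (Set.toFinite _)).2 ⟨j, MulAction.mem_orbit_self j⟩ |>.ne'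
  let i : S.subgroupOf C →* S := (C.subtype.comp (S.subgroupOf C).subtype).codRestrict S
    fun x => x.2
  have hi : Function.Injective i := fun x y hxy =>
    Subtype.ext (Subtype.ext (congrArg (fun z : S => (z : Λ)) hxy))
  let φ : S.subgroupOf C →* G := f.comp ((stHom H j).comp i)
  have hφ : Function.Injective φ := hf.comp ((stHom_inj H j).comp hi)
  -- the image has a finite image in `GL_n(ℤ)`
  have hW : Finite (φ.range.map θ) := by
    let F : Matrix.GeneralLinearGroup (Fin (Module.finrank ℤ (Λ ⧸ H → Fin n → ℤ))) ℤ →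
        Matrix (Fin n) (Fin n) ℤ := fun A => Matrix.of fun a b =>
      E.symm (A : Matrix _ _ ℤ) (Pi.single j (Pi.single b 1)) j a
    have h1 : (F '' (C.map Θ : Set _)).Finite := (Set.toFinite _).image F
    refine Set.Finite.subset (h1.preimage (Units.val_injective.injOn)) ?_ |>.to_subtype
    rintro _ ⟨_, ⟨x, rfl⟩, rfl⟩
    refine ⟨Θ x.1.1, ⟨x.1.1, x.1.2, rfl⟩, ?_⟩
    ext a b
    have h3 : x.1.1 • j = j := x.2
    have h4 : E.symm (Θ x.1.1 : Matrix _ _ ℤ) = powR D θ x.1.1 := E.symm_apply_apply _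
    change E.symm (Θ x.1.1 : Matrix _ _ ℤ) (Pi.single j (Pi.single b 1)) j a = _
    rw [h4, powR_coef D θ x.1.1 j h3]
    rfl
  exact hv φ.range hW C (hΛ.sub C) (S.subgroupOf C) inferInstance φ.rangeRestrict
    fun x y hxy => hφ (congrArg Subtype.val hxy)

end Pool.Agent.ZN
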