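import Pool.Agent.Lib.MP_8f66f0_al_BN.NCS
import Pool.Agent.Lib.MP_8f66f0_al_ZN.ZP
import Pool.Agent.Lib.MP_8f66f0_al_ZN.Ea
import Pool.Agent.Lib.MP_8f66f0_al_ZN.LQD

/-! The theorem on the class `LQ`, from the rule `S_ZP KS` and the theorem on finitely generated
linear groups whose elements have integral characteristic polynomials. -/

set_option autoImplicit false

namespace Pool.Agent.ZN

open Pool.Agent Pool.Agent.TreeC Pool.Agent.Cx2 Pool.Agent.QT Pool.Agent.TQ Pool.Agent.CC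
  Pool.Agent.FH Pool.Agent.BN Pool.Agent.WhVan

/-- Finitely generated linear groups with integral characteristic polynomials have a homomorphism
to `GL_N(ℤ)` such that the preimages of finite groups are elementary amenable. -/
def S_INT : Prop :=
  ∀ (d : ℕ) (R : Type) [CommRing R] (G : Type) [Group G], Group.FG G → ∀ ρ : G →* GN d R,
    IntCh ρ ⊤ → ∃ (N : ℕ) (φ : G →* Matrix.GeneralLinearGroup (Fin N) ℤ),
      ∀ U : Subgroup G, Finite (U.map φ) → EAm (U.map ρ)

variable {P : (G : Type) → [Group G] → Prop}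

/-- Linear groups. -/
theorem gl_mem (hI : S_INT) (hN : NCl P) (hE : ExCl P) (hZ : S_ZP P) (d : ℕ) (R : Type)
    [CommRing R] : P (Matrix.GeneralLinearGroup (Fin d) R) := by
  refine red_all P hN d R _ (MonoidHom.id _) fun D hD => ?_
  refine hN.directed D {K | K.FG} ⟨⊥, Subgroup.FG.bot⟩ ?_ ?_ ?_
  · intro K hK K' hK'
    exact ⟨K ⊔ K', Subgroup.FG.sup hK hK', le_sup_left, le_sup_right⟩
  · intro g
    exact ⟨Subgroup.closure {g}, ⟨{g}, by simp⟩, Subgroup.subset_closure rfl⟩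
  · intro K hK
    have hfg : Group.FG K := (Group.fg_iff_subgroup_fg K).2 hK
    let ρ : K →* GN d R := D.subtype.comp K.subtype
    have hρ : Function.Injective ρ := D.subtype_injective.comp K.subtype_injective
    obtain ⟨N, φ, h1⟩ := hI d R K hfg ρ fun g _ k => hD _ g.1.2 k
    refine hZ N K φ fun U hU => ?_
    exact hN.iso _ _ (U.equivMapOfInjective ρ hρ).symm (hE.ea (h1 U hU))

/-- All extensions of groups of the class by groups with `PC P` have `PC P`. -/
theorem lq_star (hI : S_INT) (hP : TClv P) (hTQ : S_TQP P) (hCC : S_CCP P) (hSh : S_SHA P)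
    (hZ : S_ZP P) {Γ : Type} [Group Γ] (h : LQ Γ) : Star (PC P) Γ := by
  have h1 : TClv (PC P) := pc_tclv hP hTQ
  have h2 : TClv (Star (PC P)) := (star (PC P) h1).1
  have h3 := (star (PC P) h1).2
  have h4 : TCl (Star (PC P)) :=
    ⟨h2.triv, h2.iso, h2.directed, fun G V _ _ _ 𝓗 hH hx _ => h2.tree G V 𝓗 hH hx⟩
  have h5 : S_CCI (Star (PC P)) := cci_star h1 (pc_cci hCC)
  have h6 : S_SHA (Star (PC P)) := sha_star h1 (pc_sha hSh)
  have h7 : NCl (Star (PC P)) := ncl_of_sha h4 h6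
  have h8 : ExCl (Star (PC P)) := ⟨h4, fun G _ K hK h => star_fi' h1 G K hK h, h3⟩
  have h9 : S_ZP (Star (PC P)) := zp_star h1 (zp_pc hZ)
  induction h with
  | gl d R => exact gl_mem hI h7 h8 h9 d R
  | emb f hf _ ih => exact tclv_emb h2 f hf ih
  | directed S hne hd hS _ ih => exact h2.directed _ S hne hd hS ih
  | ext f _ _ ih1 ih2 => exact h3 _ _ f ih1 ih2
  | tree T hT hadj _ ih => exact tree_any h2 (fun G _ K => star_fi' h1 G K) T hT hadj ih
  | @cube Γ V _ _ G N hG hN hA _ ih =>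
    have _ : Nonempty V := hG.conn.nonempty
    exact h5 Γ V hG.toMed (hG.inv hA) N (hG.dim hN) ih

/-- The torsion-free groups of the class are in `P`. -/
theorem lq_mem (hI : S_INT) (hP : TClv P) (hTQ : S_TQP P) (hCC : S_CCP P) (hSh : S_SHA P)
    (hZ : S_ZP P) {Γ : Type} [Group Γ] (h : LQ Γ) (ht : FH.TF Γ) : P Γ := by
  have h1 : PC P Γ := by
    refine lq_star hI hP hTQ hCC hSh hZ h Γ (MonoidHom.id Γ) ?_
    have hs : Subsingleton (MonoidHom.id Γ).ker := by
      constructor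
      rintro ⟨a, ha⟩ ⟨b, hb⟩
      apply Subtype.ext
      rw [MonoidHom.mem_ker] at ha hb
      exact ha.trans hb.symm
    exact pc_triv hP _
  exact h1 Γ ht ⊤ inferInstance (⊤ : Subgroup Γ).subtype (⊤ : Subgroup Γ).subtype_injective

/-- The torsion-free groups of the class are in `KS`. -/
theorem lq_ks (hI : S_INT) (hG : S_SHP KS) (hTQ : S_TQC) (hCC : S_CCP (Hd KS)) (hZ : S_ZP KS)
    {Γ : Type} [Group Γ] (h : LQ Γ) (ht : FH.TF Γ) : KS Γ := by
  have g1 : TClv (Hd KS) := hd KS ks_tcl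
  have g2 : TClv (Star (Hd KS)) := (star (Hd KS) g1).1
  have g8 : S_SHA (Star (Hd KS)) := sha_star g1 (sha_hd ks_tcl (sha_of_shp KS ks_tcl hG))
  have g6 : S_CCP (Star (Hd KS)) := ccp_star g1 hCC
  have g9 : S_ZP (Star (Hd KS)) := zp_star g1 (zp_hd ks_tcl hZ)
  have h1 : Star (Hd KS) Γ := lq_mem hI g2 (tqp_star hTQ) g6 g8 g9 h ht
  have h2 : Hd KS Γ := by
    refine h1 Γ (MonoidHom.id Γ) ?_
    have : Subsingleton (MonoidHom.id Γ).ker := by
      constructor
      rintro ⟨a, ha⟩ ⟨b, hb⟩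
      apply Subtype.ext
      rw [MonoidHom.mem_ker] at ha hb
      exact ha.trans hb.symm
    exact g1.triv _
  exact ks_tcl.iso _ _ Subgroup.topEquiv (h2 ⊤)

/-- The main theorem. -/
theorem lq_main (hI : S_INT) (hG : S_SHP KS) (hTQ : S_TQC) (hCC : S_CCP (Hd KS)) (hZ : S_ZP KS)
    {Γ : Type} [Group Γ] (h : LQ Γ) (ht : FH.TF Γ) (L : Type) [CommRing L] [IsDomain L]
    (hL : IsEuc L) : K1Units L Γ :=
  (WaldL.k1Units_iff L Γ).2 ((lq_ks hI hG hTQ hCC hZ h ht).1 L hL)

end Pool.Agent.ZN
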