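import Mathlib
import Pool.Agent.Lib.MP_8f66f0_al_ZX.TF

/-!
# PROJECT ZERO, part N: unique roots

In a ring without `3`-torsion in which the intersection of the ideals `3 ^ k R` is zero, roots of
elements congruent to `1` modulo `3` are unique among the elements congruent to `1` modulo `3`.
-/

set_option autoImplicit false

namespace Pool.Agent.ZN

open Module

section

variable {R : Type} [Ring R]

theorem pow_form {A X : R} (hA : A = 1 + (3 : ℤ) • X) (b : ℕ) :
    ∃ X', A ^ b = 1 + (3 : ℤ) • X' := by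
  induction b with
  | zero => exact ⟨0, by simp⟩
  | succ b ih =>
    obtain ⟨X', h⟩ := ih
    refine ⟨X' + X + (3 : ℤ) • (X' * X), ?_⟩
    rw [pow_succ, h, hA]
    noncomm_ring

theorem diff_form {A B X Y D : R} (hA : A = 1 + (3 : ℤ) • X) (hB : B = 1 + (3 : ℤ) • Y) {c : ℤ}
    (hD : A - B = c • D) (b : ℕ) :
    ∃ Z, A ^ b - B ^ b = c • ((b : ℤ) • D + (3 : ℤ) • Z) := by
  induction b with
  | zero => exact ⟨0, by simp⟩
  | succ b ih =>
    obtain ⟨Z, h⟩ := ih
    obtain ⟨X', h'⟩ := pow_form hA b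
    refine ⟨X' * D + (b : ℤ) • (D * Y) + Z * B, ?_⟩
    have h1 : A ^ (b + 1) - B ^ (b + 1) = A ^ b * (A - B) + (A ^ b - B ^ b) * B := by
      rw [pow_succ, pow_succ]
      noncomm_ring
    rw [h1, hD, h, h', mul_smul_comm, smul_mul_assoc, ← smul_add]
    congr 1
    have h2 : D * B = D + (3 : ℤ) • (D * Y) := by
      rw [hB, mul_add, mul_one, mul_smul_comm]
    rw [add_mul, add_mul, smul_mul_assoc, smul_mul_assoc, smul_mul_assoc, h2, one_mul]
    push_cast
    simp only [smul_add, add_smul, one_smul]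
    rw [smul_comm (b : ℤ) (3 : ℤ) (D * Y)]
    abel

theorem cube_form {A B X Y D : R} (hA : A = 1 + (3 : ℤ) • X) (hB : B = 1 + (3 : ℤ) • Y) {c : ℤ}
    (hD : A - B = c • D) :
    ∃ Z, A ^ 3 - B ^ 3 = (c * 3) • (D + (3 : ℤ) • Z) := by
  refine ⟨X * D + D * Y + X * X * D + X * D * Y + D * Y * Y, ?_⟩
  have h1 : A ^ 3 - B ^ 3 = A * A * (A - B) + A * (A - B) * B + (A - B) * (B * B) := by
    rw [pow_succ, pow_succ, pow_one, pow_succ, pow_succ, pow_one]
    noncomm_ring
  rw [h1, hD, mul_smul_comm, mul_smul_comm, smul_mul_assoc, smul_mul_assoc, ← smul_add,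
    ← smul_add, mul_smul]
  congr 1
  rw [hA, hB]
  noncomm_ring

variable (h3 : ∀ x : R, (3 : ℤ) • x = 0 → x = 0)
  (hs : ∀ x : R, (∀ k : ℕ, ∃ y : R, x = (3 : ℤ) ^ k • y) → x = 0)

include h3

theorem no_tor (k : ℕ) (x : R) (h : (3 : ℤ) ^ k • x = 0) : x = 0 := by
  induction k with
  | zero => simpa using h
  | succ k ih =>
    rw [pow_succ, mul_comm, mul_smul] at h
    exact ih (h3 _ h)

include hs

theorem root_cop {A B X Y : R} (hA : A = 1 + (3 : ℤ) • X) (hB : B = 1 + (3 : ℤ) • Y) {b : ℕ}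
    (hb : ¬ 3 ∣ b) (h : A ^ b = B ^ b) : A = B := by
  apply sub_eq_zero.1
  apply hs
  intro k
  induction k with
  | zero => exact ⟨A - B, by simp⟩
  | succ k ih =>
    obtain ⟨D, hD⟩ := ih
    obtain ⟨Z, hZ⟩ := diff_form hA hB hD b
    rw [h, sub_self] at hZ
    have h1 := no_tor h3 k _ hZ.symm
    have h2 : IsCoprime (b : ℤ) 3 := by
      rw [Int.isCoprime_iff_gcd_eq_one]
      have h4 : Nat.Coprime b 3 := ((Nat.Prime.coprime_iff_not_dvd Nat.prime_three).2 hb).symm
      exact_mod_cast h4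
    obtain ⟨u, v, huv⟩ := h2
    refine ⟨v • D - u • Z, ?_⟩
    rw [hD, pow_succ, mul_smul]
    congr 1
    have h5 : D = (u * b + v * 3) • D := by rw [huv, one_smul]
    have h6 : (b : ℤ) • D = -((3 : ℤ) • Z) := eq_neg_of_add_eq_zero_left h1
    calc D = (u * b + v * 3) • D := h5
      _ = u • ((b : ℤ) • D) + (3 : ℤ) • (v • D) := by
        rw [add_smul, mul_smul, mul_comm v 3, mul_smul]
      _ = (3 : ℤ) • (v • D - u • Z) := by
        rw [h6, smul_neg, smul_comm u (3 : ℤ) Z, smul_sub]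
        abel

theorem root_cube {A B X Y : R} (hA : A = 1 + (3 : ℤ) • X) (hB : B = 1 + (3 : ℤ) • Y)
    (h : A ^ 3 = B ^ 3) : A = B := by
  apply sub_eq_zero.1
  apply hs
  intro k
  induction k with
  | zero => exact ⟨A - B, by simp⟩
  | succ k ih =>
    obtain ⟨D, hD⟩ := ih
    obtain ⟨Z, hZ⟩ := cube_form hA hB hD
    rw [h, sub_self, ← pow_succ] at hZ
    have h1 := no_tor h3 _ _ hZ.symm
    refine ⟨-Z, ?_⟩
    rw [hD, pow_succ, mul_smul]
    congr 1
    rw [smul_neg]
    exact eq_neg_of_add_eq_zero_left h1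

/-- **Unique roots.** -/
theorem root {A B X Y : R} (hA : A = 1 + (3 : ℤ) • X) (hB : B = 1 + (3 : ℤ) • Y) (a : ℕ)
    (ha : 0 < a) (h : A ^ a = B ^ a) : A = B := by
  induction a using Nat.strong_induction_on with
  | _ a ih =>
    by_cases hd : 3 ∣ a
    · obtain ⟨a', rfl⟩ := hd
      have ha' : 0 < a' := by omega
      obtain ⟨X', hX⟩ := pow_form hA a'
      obtain ⟨Y', hY⟩ := pow_form hB a'
      refine ih a' (by omega) ha' (root_cube h3 hs hX hY ?_)
      rw [← pow_mul, ← pow_mul, mul_comm a' 3]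
      exact h
    · exact root_cop h3 hs hA hB hd h

end

/-! ### Automorphisms -/

variable {O : Type} [Ring O] {N : ℕ} (e : Basis (Fin N) ℤ O)

/-- An automorphism as an additive map. -/
def en (g : O ≃+* O) : Module.End ℤ O := g.toAddEquiv.toAddMonoidHom.toIntLinearMap

theorem en_apply (g : O ≃+* O) (x : O) : en g x = g x := rfl

theorem en_mul (g h : O ≃+* O) : en (g * h) = en g * en h := rfl

theorem en_one : en (1 : O ≃+* O) = 1 := rfl

theorem en_pow (g : O ≃+* O) (n : ℕ) : en (g ^ n) = en g ^ n := by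
  induction n with
  | zero => rw [pow_zero, pow_zero, en_one]
  | succ n ih => rw [pow_succ, pow_succ, en_mul, ih]

theorem en_inj {g h : O ≃+* O} (hgh : en g = en h) : g = h := by
  ext x
  exact LinearMap.congr_fun hgh x

include e

theorem en_cong {g : O ≃+* O} (hg : g ∈ ZX.cong O 3) : ∃ X : Module.End ℤ O, en g = 1 + (3 : ℤ) • X := by
  choose y hy using fun i => hg (e i)
  refine ⟨e.constr ℤ y, ?_⟩
  apply e.ext
  intro i
  rw [LinearMap.add_apply, LinearMap.smul_apply, e.constr_basis]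
  have h := hy i
  rw [sub_eq_iff_eq_add'] at h
  exact h

theorem smul_inj {c : ℤ} (hc : c ≠ 0) {x : O} (h : c • x = 0) : x = 0 := by
  apply e.repr.injective
  ext i
  have h1 := congrArg (fun z => e.repr z i) h
  simp only [map_smul, Finsupp.smul_apply, map_zero, Finsupp.coe_zero, Pi.zero_apply,
    smul_eq_mul, mul_eq_zero] at h1
  rw [map_zero, Finsupp.zero_apply]
  exact h1.resolve_left hc

theorem sep (x : O) (h : ∀ k : ℕ, ∃ y : O, x = (3 : ℤ) ^ k • y) : x = 0 := by
  apply e.repr.injective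
  ext i
  rw [map_zero, Finsupp.zero_apply]
  obtain ⟨y, hy⟩ := h (e.repr x i).natAbs
  have h1 : (3 : ℤ) ^ (e.repr x i).natAbs ∣ e.repr x i := by
    refine ⟨e.repr y i, ?_⟩
    conv_lhs => rw [hy]
    rw [map_smul, Finsupp.smul_apply, smul_eq_mul]
  refine Int.eq_zero_of_abs_lt_dvd h1 ?_
  rw [Int.abs_eq_natAbs]
  exact_mod_cast Nat.lt_pow_self (by norm_num)

/-- **Unique roots for automorphisms congruent to `1` modulo `3`.** -/
theorem root_aut {g h : O ≃+* O} (hg : g ∈ ZX.cong O 3) (hh : h ∈ ZX.cong O 3) (a : ℕ) (ha : 0 < a)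
    (hgh : g ^ a = h ^ a) : g = h := by
  obtain ⟨X, hX⟩ := en_cong e hg
  obtain ⟨Y, hY⟩ := en_cong e hh
  apply en_inj
  refine root ?_ ?_ hX hY a ha ?_
  · intro x hx
    apply LinearMap.ext
    intro v
    exact smul_inj e (by norm_num) (LinearMap.congr_fun hx v)
  · intro x hx
    apply LinearMap.ext
    intro v
    refine sep e _ fun k => ?_
    obtain ⟨y, hy⟩ := hx k
    exact ⟨y v, by rw [hy, LinearMap.smul_apply]⟩
  · rw [← en_pow, ← en_pow, hgh]

end Pool.Agent.ZN
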